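import Mathlib

namespace Pool.Agent.H.MP_f6f14e_gt

open Set Filter Topology Metric

variable {X : Type*} [MetricSpace X]

/-- continuity up to an error -/
def EC (φ : ℝ → X) (ε : ℝ) : Prop := ∀ t, ∀ᶠ s in 𝓝 t, dist (φ s) (φ t) ≤ ε

theorem EC.glue {φ ψ : ℝ → X} {ε t : ℝ} (h : EC φ ε) (h' : EC ψ ε) (e : φ t = ψ t) :
    EC (fun r => if r ≤ t then φ r else ψ r) ε := by
  intro r
  rcases lt_trichotomy r t with k | rfl | k
  · filter_upwards [h r, Iio_mem_nhds k] with s hs (hs' : s < t)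
    simpa only [if_pos hs'.le, if_pos k.le] using hs
  · filter_upwards [h r, h' r] with s hs hs'
    simp only [le_refl, if_true]
    split_ifs
    · exact hs
    · rwa [e]
  · filter_upwards [h' r, Ioi_mem_nhds k] with s hs (hs' : t < s)
    simpa only [if_neg (not_le.2 hs'), if_neg (not_le.2 k)] using hs

theorem ec_step {x y : X} {ε : ℝ} (h : dist x y ≤ ε) (s : ℝ) :
    EC (fun r => if r ≤ s then x else y) ε := by
  intro r
  have := dist_nonneg.trans h
  refine Eventually.of_forall fun q => ?_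
  dsimp only
  split_ifs
  · simpa
  · exact h
  · rwa [dist_comm]
  · simpa

theorem ec_conn {E : Set X} (hE : IsPreconnected E) {ε : ℝ} (he : 0 < ε) {x y : X} (hx : x ∈ E)
    (hy : y ∈ E) : ∀ s t : ℝ, s < t → ∃ φ : ℝ → X, EC φ ε ∧ (∀ r, φ r ∈ E) ∧
      (∀ r, r ≤ s → φ r = x) ∧ ∀ r, t ≤ r → φ r = y := by
  have base : ∀ a ∈ E, ∀ b ∈ E, dist a b ≤ ε → ∀ s t : ℝ, s < t → ∃ φ : ℝ → X, EC φ ε ∧
      (∀ r, φ r ∈ E) ∧ (∀ r, r ≤ s → φ r = a) ∧ ∀ r, t ≤ r → φ r = b := by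
    intro a ha b hb h s t hst
    refine ⟨_, ec_step h s, fun r => ?_, fun r hr => if_pos hr, fun r hr => if_neg (by linarith)⟩
    split_ifs <;> assumption
  refine hE.induction₂' (fun a b => ∀ s t : ℝ, s < t → ∃ φ : ℝ → X, EC φ ε ∧
      (∀ r, φ r ∈ E) ∧ (∀ r, r ≤ s → φ r = a) ∧ ∀ r, t ≤ r → φ r = b) ?_ ?_ hx hy
  · intro a ha
    filter_upwards [self_mem_nhdsWithin, mem_nhdsWithin_of_mem_nhds (closedBall_mem_nhds a he)]
      with b hb hb'
    exact ⟨base a ha b hb (by rwa [dist_comm]), base b hb a ha hb'⟩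
  · intro a b c _ _ _ h1 h2 s t hst
    obtain ⟨φ, p1, p2, p3, p4⟩ := h1 s ((s + t) / 2) (by linarith)
    obtain ⟨ψ, q1, q2, q3, q4⟩ := h2 ((s + t) / 2) t (by linarith)
    refine ⟨_, p1.glue q1 (t := (s + t) / 2) (by rw [p4 _ le_rfl, q3 _ le_rfl]), fun r => ?_,
      fun r hr => ?_, fun r hr => ?_⟩
    · split_ifs
      · exact p2 r
      · exact q2 r
    · rw [if_pos (by linarith), p3 r hr]
    · rw [if_neg (by linarith), q4 r hr]

theorem ec_refine {B : ℝ} (hB : 0 ≤ B) (bt : ∀ u v : X, ∃ E, IsPreconnected E ∧ u ∈ E ∧ v ∈ E ∧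
      ∀ a ∈ E, dist a u ≤ B * dist u v) {u v : X} {ε : ℝ} (he : 0 < ε) {γ : ℝ → X} (h : EC γ ε)
    (h0 : ∀ r, r ≤ 0 → γ r = u) (h1 : ∀ r, 1 ≤ r → γ r = v) :
    ∃ φ : ℝ → X, EC φ (ε / 2) ∧ (∀ r, r ≤ 0 → φ r = u) ∧ (∀ r, 1 ≤ r → φ r = v) ∧
      ∀ r, dist (γ r) (φ r) ≤ (2 * B + 2) * ε := by
  obtain ⟨δ, d0, hd⟩ := lebesgue_number_lemma_of_metric (s := Icc (0 : ℝ) 1)
    (c := fun t : ℝ => interior {s | dist (γ s) (γ t) ≤ ε}) isCompact_Icc
    (fun _ => isOpen_interior)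
    (fun t _ => mem_iUnion.2 ⟨t, mem_interior_iff_mem_nhds.2 (h t)⟩)
  have hd' : ∀ s ∈ Icc (0 : ℝ) 1, ∀ t, |t - s| < δ → dist (γ t) (γ s) ≤ 2 * ε := by
    intro s hs t ht
    obtain ⟨c, hc⟩ := hd s hs
    have a1 : dist (γ s) (γ c) ≤ ε := 
      interior_subset (s := {s | dist (γ s) (γ c) ≤ ε}) (hc (mem_ball_self d0))
    have a2 : dist (γ t) (γ c) ≤ ε :=
      interior_subset (s := {s | dist (γ s) (γ c) ≤ ε}) (hc ht)
    linarith [dist_triangle_right (γ t) (γ s) (γ c)]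
  obtain ⟨n, hn⟩ := exists_nat_one_div_lt d0
  obtain ⟨w, hw⟩ : ∃ w : ℝ, w = 1 / (n + 1) := ⟨_, rfl⟩
  have w0 : 0 < w := by rw [hw]; positivity
  have w1 : (n + 1) * w = 1 := by rw [hw]; field_simp
  rw [← hw] at hn
  have key : ∀ i : ℕ, i ≤ n + 1 → ∃ φ : ℝ → X, EC φ (ε / 2) ∧ (∀ r, r ≤ 0 → φ r = u) ∧
      (∀ r, i * w ≤ r → φ r = γ (i * w)) ∧
      ∀ r ∈ Icc 0 (i * w), dist (γ r) (φ r) ≤ (2 * B + 2) * ε := by
    intro i
    induction i with
    | zero =>
      intro _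
      refine ⟨fun _ => u, fun _ => Eventually.of_forall fun _ => by simpa using (half_pos he).le,
        fun _ _ => rfl, fun _ _ => by simp [h0], fun r hr => ?_⟩
      rw [h0 r (by simpa using hr.2), dist_self]
      positivity
    | succ i ih =>
      intro hi
      obtain ⟨φ, p1, p2, p3, p4⟩ := ih (by omega)
      have i0 : 0 ≤ i * w := by positivity
      have i1 : (i : ℝ) ≤ n := by exact_mod_cast (by omega : i ≤ n)
      have i2 : i * w ∈ Icc (0 : ℝ) 1 := ⟨i0, by nlinarith⟩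
      obtain ⟨E, e1, e2, e3, e4⟩ := bt (γ (i * w)) (γ ((i + 1) * w))
      obtain ⟨ψ, q1, q2, q3, q4⟩ := ec_conn e1 (half_pos he) e2 e3 (i * w) ((i + 1) * w)
        (by linarith)
      push_cast
      refine ⟨_, p1.glue q1 (t := i * w) (by rw [p3 _ le_rfl, q3 _ le_rfl]), fun r hr => ?_,
        fun r hr => ?_, fun r hr => ?_⟩
      · rw [if_pos (by linarith), p2 r hr]
      · rw [if_neg (by linarith), q4 r hr]
      · split_ifs with k
        · exact p4 r ⟨hr.1, k⟩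
        · have a1 := hd' _ i2 r (by rw [abs_lt]; constructor <;> linarith [hr.2])
          have a2 := hd' _ i2 ((i + 1) * w) (by rw [abs_lt]; constructor <;> linarith)
          have a3 := e4 _ (q2 r)
          rw [dist_comm] at a2
          have := mul_le_mul_of_nonneg_left a2 hB
          linarith [dist_triangle_right (γ r) (ψ r) (γ (i * w))]
  obtain ⟨φ, p1, p2, p3, p4⟩ := key (n + 1) le_rfl
  push_cast at p3 p4
  rw [w1] at p3 p4
  refine ⟨φ, p1, p2, fun r hr => by rw [p3 r hr, h1 1 le_rfl], fun r => ?_⟩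
  rcases le_total r 0 with k | k
  · rw [h0 r k, p2 r k, dist_self]
    positivity
  rcases le_total 1 r with k' | k'
  · rw [h1 r k', p3 r k', h1 1 le_rfl, dist_self]
    positivity
  · exact p4 r ⟨k, k'⟩

theorem exists_path [CompleteSpace X] {B : ℝ} (hB : 0 ≤ B)
    (bt : ∀ u v : X, ∃ E, IsPreconnected E ∧ u ∈ E ∧ v ∈ E ∧ ∀ a ∈ E, dist a u ≤ B * dist u v)
    {u v : X} (huv : u ≠ v) : ∃ γ : ℝ → X, Continuous γ ∧ γ 0 = u ∧ γ 1 = v ∧
      ∀ r, dist (γ r) u ≤ (4 * B + 5) * dist u v := by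
  have d0 : 0 < dist u v := dist_pos.2 huv
  let P : ℕ → (ℝ → X) → Prop := fun n γ =>
    EC γ (dist u v / 2 ^ n) ∧ (∀ r, r ≤ 0 → γ r = u) ∧ ∀ r, 1 ≤ r → γ r = v
  have step : ∀ n γ, P n γ → ∃ φ, P (n + 1) φ ∧
      ∀ r, dist (γ r) (φ r) ≤ (2 * B + 2) * dist u v * (1 / 2) ^ n := by
    intro n γ h
    obtain ⟨φ, p1, p2, p3, p4⟩ := ec_refine hB bt (by positivity) h.1 h.2.1 h.2.2
    refine ⟨φ, ⟨by rwa [pow_succ, ← div_div], p2, p3⟩, fun r => (p4 r).trans (le_of_eq ?_)⟩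
    rw [one_div, inv_pow]
    ring
  choose! f hf using step
  have p0 : P 0 (fun r => if r ≤ 0 then u else v) :=
    ⟨ec_step (by simp) 0, fun r hr => if_pos hr, fun r hr => if_neg (by linarith)⟩
  let g : ℕ → ℝ → X := fun n => Nat.rec (fun r => if r ≤ 0 then u else v) f n
  have gP : ∀ n, P n (g n) := fun n => by
    induction n with
    | zero => exact p0
    | succ n ih => exact (hf n _ ih).1
  have gd : ∀ r n, dist (g n r) (g (n + 1) r) ≤ (2 * B + 2) * dist u v * (1 / 2) ^ n :=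
    fun r n => (hf n _ (gP n)).2 r
  have lim : ∀ r, ∃ x, Tendsto (fun n => g n r) atTop (𝓝 x) := fun r =>
    cauchySeq_tendsto_of_complete (cauchySeq_of_le_geometric (1 / 2) _ (by norm_num) (gd r))
  choose γ hγ using lim
  have gl : ∀ r n, dist (g n r) (γ r) ≤ (2 * B + 2) * dist u v * (1 / 2) ^ n / (1 - 1 / 2) :=
    fun r n => dist_le_of_le_geometric_of_tendsto (1 / 2) _ (by norm_num) (gd r) (hγ r) n
  refine ⟨γ, ?_, ?_, ?_, fun r => ?_⟩
  · rw [Metric.continuous_iff']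
    intro t ε he
    have := ((tendsto_pow_atTop_nhds_zero_of_lt_one (r := (1 / 2 : ℝ)) (by norm_num)
      (by norm_num)).const_mul ((8 * B + 9) * dist u v)).eventually
      (gt_mem_nhds (by simpa using he))
    obtain ⟨n, hn⟩ := this.exists
    filter_upwards [(gP n).1 t] with s hs
    have a1 := gl s n
    have a2 := gl t n
    rw [dist_comm] at a1
    have e : dist u v / 2 ^ n = dist u v * (1 / 2) ^ n := by
      rw [one_div, inv_pow]
      ring
    rw [show (1 - 1 / 2 : ℝ) = 1 / 2 by norm_num] at a1 a2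
    linarith [dist_triangle4 (γ s) (g n s) (g n t) (γ t)]
  · refine tendsto_nhds_unique (hγ 0) ?_
    simp only [(gP _).2.1 0 le_rfl, tendsto_const_nhds]
  · refine tendsto_nhds_unique (hγ 1) ?_
    simp only [(gP _).2.2 1 le_rfl, tendsto_const_nhds]
  · have a1 := gl r 0
    have a2 : dist (g 0 r) u ≤ dist u v := by
      change dist (if r ≤ 0 then u else v) u ≤ _
      split_ifs
      · simp
      · rw [dist_comm]
    rw [dist_comm, show (1 - 1 / 2 : ℝ) = 1 / 2 by norm_num, pow_zero] at a1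
    linarith [dist_triangle (γ r) (g 0 r) u]

/-- `A` is a Jordan arc with endpoints `x` and `y`. -/
def IsArc (A : Set X) (x y : X) : Prop :=
  ∃ g : ℝ → X, ContinuousOn g (Icc 0 1) ∧ InjOn g (Icc 0 1) ∧ g 0 = x ∧ g 1 = y ∧
    A = g '' Icc 0 1

theorem min_set {γ : ℝ → X} (hc : Continuous γ) : ∃ K : Set ℝ, IsCompact K ∧ K ⊆ Icc 0 1 ∧
    0 ∈ K ∧ 1 ∈ K ∧ ∀ a ∈ K, ∀ b ∈ K, a < b → (γ a = γ b ↔ ∀ t ∈ K, t ≤ a ∨ b ≤ t) := by
  let S : Set (Set ℝ) := {K | IsCompact K ∧ 0 ∈ K ∧ 1 ∈ K ∧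
    ∀ a ∈ K, ∀ b ∈ K, a < b → (∀ t ∈ K, t ≤ a ∨ b ≤ t) → γ a = γ b}
  obtain ⟨K, k1, k2⟩ := zorn_superset_nonempty S (fun c hc' ch ne => by
    obtain ⟨K0, hK0⟩ := ne
    refine ⟨⋂₀ c, ⟨(hc' hK0).1.of_isClosed_subset (isClosed_sInter fun K hK => (hc' hK).1.isClosed)
      (sInter_subset_of_mem hK0), fun K hK => (hc' hK).2.1, fun K hK => (hc' hK).2.2.1, ?_⟩,
      fun s hs => sInter_subset_of_mem hs⟩
    intro a ha b hb hab h
    apply eq_of_forall_dist_le
    intro ε he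
    obtain ⟨d1, p1, q1⟩ := Metric.continuous_iff.1 hc a _ (half_pos he)
    obtain ⟨d2, p2, q2⟩ := Metric.continuous_iff.1 hc b _ (half_pos he)
    obtain ⟨η, η0, η1, η2, η3⟩ : ∃ η, 0 < η ∧ η < d1 ∧ η < d2 ∧ a + η < b - η :=
      ⟨min (min d1 d2) (b - a) / 3, by have := sub_pos.2 hab; positivity,
        by have := min_le_left (min d1 d2) (b - a); have := min_le_left d1 d2; linarith,
        by have := min_le_left (min d1 d2) (b - a); have := min_le_right d1 d2; linarith,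
        by have := min_le_right (min d1 d2) (b - a); linarith⟩
    haveI : Nonempty c := ⟨⟨K0, hK0⟩⟩
    obtain ⟨⟨K, hK⟩, e⟩ := (isCompact_Icc (a := a + η) (b := b - η)).elim_directed_family_closed
      (fun K : c => (K : Set ℝ)) (fun K => (hc' K.2).1.isClosed) (by
        rw [eq_empty_iff_forall_notMem]
        rintro t ⟨ht, ht'⟩
        rcases h t (by rwa [sInter_eq_iInter]) with k | k <;> linarith [ht.1, ht.2])
      (fun K L => by
        rcases ch.total K.2 L.2 with k | k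
        · exact ⟨K, le_rfl, k⟩
        · exact ⟨L, k, le_rfl⟩)
    obtain ⟨a', ⟨a1, a2⟩, a3⟩ := ((hc' hK).1.inter_right isClosed_Iic).exists_isGreatest
      ⟨a, ha K hK, show a ≤ a + η by linarith⟩
    obtain ⟨b', ⟨b1, b2⟩, b3⟩ := ((hc' hK).1.inter_right isClosed_Ici).exists_isLeast
      ⟨b, hb K hK, show b - η ≤ b by linarith⟩
    have a4 : a ≤ a' := a3 ⟨ha K hK, show a ≤ a + η by linarith⟩
    have b4 : b' ≤ b := b3 ⟨hb K hK, show b - η ≤ b by linarith⟩
    have a2' : a' ≤ a + η := a2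
    have b2' : b - η ≤ b' := b2
    have e' := (hc' hK).2.2.2 a' a1 b' b1 (by linarith) fun t ht => by
      by_cases k : t ≤ a + η
      · exact Or.inl (a3 ⟨ht, k⟩)
      by_cases k' : b - η ≤ t
      · exact Or.inr (b3 ⟨ht, k'⟩)
      exact absurd ⟨⟨by linarith, by linarith⟩, ht⟩ (eq_empty_iff_forall_notMem.1 e t)
    have r1 := q1 a' (by rw [Real.dist_eq, abs_lt]; constructor <;> linarith)
    have r2 := q2 b' (by rw [Real.dist_eq, abs_lt]; constructor <;> linarith)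
    rw [e'] at r1
    linarith [dist_triangle_left (γ a) (γ b) (γ b')]) (Icc 0 1)
    ⟨isCompact_Icc, by simp, by simp, fun a ha b hb hab h => by
      rcases h ((a + b) / 2) ⟨by linarith [ha.1], by linarith [hb.2]⟩ with k | k <;> linarith⟩
  obtain ⟨c1, c2, c3, c4⟩ := k2.prop
  refine ⟨K, c1, k1, c2, c3, fun a ha b hb hab => ⟨fun e => ?_, c4 a ha b hb hab⟩⟩
  have : K \ Ioo a b ∈ S := by
    refine ⟨c1.diff isOpen_Ioo, ⟨c2, fun k => by linarith [k.1, (k1 ha).1]⟩,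
      ⟨c3, fun k => by linarith [k.2, (k1 hb).2]⟩, fun s hs t ht hst h => ?_⟩
    have ha' := h a ⟨ha, fun k => lt_irrefl _ k.1⟩
    have hb' := h b ⟨hb, fun k => lt_irrefl _ k.2⟩
    by_cases k : s = a ∧ t = b
    · rw [k.1, k.2, e]
    refine c4 s hs.1 t ht.1 hst fun r hr => ?_
    by_cases k' : r ∈ Ioo a b
    · have s1 : s ≤ a ∨ b ≤ s := by simpa only [mem_Ioo, not_and_or, not_lt] using hs.2
      have t1 : t ≤ a ∨ b ≤ t := by simpa only [mem_Ioo, not_and_or, not_lt] using ht.2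
      rcases s1 with s1 | s1
      · rcases t1 with t1 | t1
        · exact Or.inr (by linarith [k'.1])
        · exfalso
          apply k
          constructor
          · rcases ha' with k | k <;> linarith
          · rcases hb' with k | k <;> linarith
      · exact Or.inl (by linarith [k'.2])
    · exact h r ⟨hr, k'⟩
  intro t ht
  have := k2.eq_of_subset this diff_subset
  have ht' : t ∈ K \ Ioo a b := by rwa [this]
  simpa only [mem_Ioo, not_and_or, not_lt] using ht'.2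

theorem arc_of_path {γ : ℝ → X} (hc : Continuous γ) (hne : γ 0 ≠ γ 1) :
    ∃ A, IsArc A (γ 0) (γ 1) ∧ A ⊆ range γ := by
  obtain ⟨K, k1, k2, k3, k4, k5⟩ := min_set hc
  set ρ : ℝ → ℝ → ℝ := fun s t => diam (γ '' (K ∩ Icc s t)) with hρ
  have bd : ∀ s t, Bornology.IsBounded (γ '' (K ∩ Icc s t)) := fun s t =>
    ((k1.inter_right isClosed_Icc).image hc).isBounded
  have r1 : ∀ s s' t t', s' ≤ s → t ≤ t' → ρ s t ≤ ρ s' t' := fun s s' t t' h h' =>
    diam_mono (image_mono (inter_subset_inter_right _ (Icc_subset_Icc h h'))) (bd _ _)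
  have r2 : ∀ t, IntervalIntegrable (fun s => ρ s t) MeasureTheory.volume 0 1 := fun t =>
    Antitone.intervalIntegrable fun s s' h => r1 _ _ _ _ h le_rfl
  set h : ℝ → ℝ := fun t => ∫ s in (0 : ℝ)..1, ρ s t with hh
  have h1 : Monotone h := fun t t' k =>
    intervalIntegral.integral_mono zero_le_one (r2 t) (r2 t') fun s => r1 _ _ _ _ le_rfl k
  have h2 : ∀ t ∈ K, ∀ t', t ≤ t' → h t' ≤ h t + ρ t t' := by
    intro t ht t' k
    have : h t + ρ t t' = ∫ s in (0 : ℝ)..1, (ρ s t + ρ t t') := by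
      rw [intervalIntegral.integral_add (r2 t) intervalIntegrable_const]
      simp [hh]
    rw [this]
    refine intervalIntegral.integral_mono zero_le_one (r2 t')
      ((r2 t).add intervalIntegrable_const) fun s => ?_
    rcases le_total s t with k' | k'
    · refine le_trans (le_of_eq ?_) (diam_union' ⟨γ t, ⟨t, ⟨ht, k', le_rfl⟩, rfl⟩,
        ⟨t, ⟨ht, le_rfl, k⟩, rfl⟩⟩)
      rw [← image_union, ← inter_union_distrib_left, Icc_union_Icc_eq_Icc k' k]
    · have := r1 s t t' t' k' le_rfl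
      have : 0 ≤ ρ s t := diam_nonneg
      dsimp only
      linarith
  have h3 : ∀ a ∈ K, ∀ b ∈ K, a < b → γ a = γ b → h a = h b := by
    intro a ha b hb hab e
    refine le_antisymm (h1 hab.le) ((h2 a ha b hab.le).trans ?_)
    have : ρ a b = 0 := by
      apply diam_subsingleton
      refine (subsingleton_singleton (a := γ a)).anti ?_
      rintro _ ⟨t, ⟨t1, t2, t3⟩, rfl⟩
      rcases (k5 a ha b hb hab).1 e t t1 with k | k
      · rw [le_antisymm k t2]
        rfl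
      · rw [le_antisymm t3 k, e]
        rfl
    linarith
  have h4 : ∀ a ∈ K, ∀ b ∈ K, a < b → γ a ≠ γ b → h a < h b := by
    intro a ha b hb hab e
    obtain ⟨c, c1, c2, c3, c4⟩ : ∃ c ∈ K, a < c ∧ c < b ∧ γ c ≠ γ b := by
      obtain ⟨d, d0, hd⟩ := Metric.continuous_iff.1 hc a _ (dist_pos.2 e)
      by_cases k : ∃ c ∈ K, a < c ∧ c < a + d
      · obtain ⟨c, c1, c2, c3⟩ := k
        have n : ∀ t, a < t → t < a + d → γ t ≠ γ b := fun t t1 t2 e' => by
          have := hd t (by rw [Real.dist_eq, abs_lt]; constructor <;> linarith)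
          rw [e', dist_comm] at this
          exact lt_irrefl _ this
        refine ⟨c, c1, c2, ?_, n c c2 c3⟩
        by_contra k
        exact n b hab (by linarith) rfl
      · push Not at k
        obtain ⟨c, ⟨c1, c2⟩, c3⟩ := (k1.inter_right isClosed_Ici).exists_isLeast
          ⟨b, hb, k b hb hab⟩
        have c2' : a + d ≤ c := c2
        have e' := (k5 a ha c c1 (by linarith)).2 fun t ht => by
          by_cases k' : t ≤ a
          · exact Or.inl k'
          · exact Or.inr (c3 ⟨ht, k t ht (not_le.1 k')⟩)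
        refine ⟨c, c1, by linarith, lt_of_le_of_ne (c3 ⟨hb, k b hb hab⟩) ?_, e' ▸ e⟩
        rintro rfl
        exact e e'
    refine intervalIntegral.integral_lt_integral_of_ae_le_of_measure_setOfPred_lt_ne_zero
      zero_le_one (r2 a) (r2 b) (Eventually.of_forall fun s => r1 _ _ _ _ le_rfl hab.le) ?_
    rw [MeasureTheory.Measure.restrict_apply' measurableSet_Ioc]
    refine fun z => absurd (MeasureTheory.measure_mono_null (s := Ioc a c) ?_ z) (by simpa)
    intro s hs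
    refine ⟨?_, by linarith [hs.1, (k2 ha).1], by linarith [hs.2, (k2 c1).2]⟩
    have : ρ s a = 0 := by simp [hρ, Icc_eq_empty_of_lt hs.1]
    change ρ s a < ρ s b
    rw [this]
    exact (dist_pos.2 c4).trans_le (dist_le_diam_of_mem (bd _ _) ⟨c, ⟨c1, hs.2, c3.le⟩, rfl⟩
      ⟨b, ⟨hb, by linarith [hs.2], le_rfl⟩, rfl⟩)
  have h5 : ∀ a ∈ K, ∀ b ∈ K, (γ a = γ b ↔ h a = h b) := by
    have k : ∀ a ∈ K, ∀ b ∈ K, a < b → (γ a = γ b ↔ h a = h b) := fun a ha b hb hab =>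
      ⟨h3 a ha b hb hab, fun e => by_contra fun e' => (h4 a ha b hb hab e').ne e⟩
    intro a ha b hb
    rcases lt_trichotomy a b with l | rfl | l
    · exact k a ha b hb l
    · simp
    · rw [eq_comm, k b hb a ha l, eq_comm]
  have h6 : ContinuousOn h K := by
    rw [Metric.continuousOn_iff]
    intro t ht ε he
    obtain ⟨d, d0, hd⟩ := Metric.continuous_iff.1 hc t (ε / 3) (by positivity)
    have k : ∀ a ∈ K, ∀ b, a ≤ b → |a - t| < d → |b - t| < d → |h b - h a| < ε := by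
      intro a ha b hab p q
      rw [abs_lt] at p q
      have : ρ a b ≤ 2 * (ε / 3) := by
        refine diam_le_of_subset_closedBall (x := γ t) (by positivity) ?_
        rintro _ ⟨s, ⟨-, s1, s2⟩, rfl⟩
        exact (hd s (by rw [Real.dist_eq, abs_lt]; constructor <;> linarith)).le
      rw [abs_of_nonneg (sub_nonneg.2 (h1 hab))]
      linarith [h2 a ha b hab]
    refine ⟨d, d0, fun s hs hst => ?_⟩
    rcases le_total s t with l | l
    · rw [dist_comm]
      exact k s hs t l hst (by simpa)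
    · exact k t ht s l (by simpa) hst
  have H0 : 0 < h 1 - h 0 := sub_pos.2 (h4 0 k3 1 k4 one_pos hne)
  have h7 : ∀ τ ∈ Icc (0 : ℝ) 1, ∃ k ∈ K, h k = h 0 + τ * (h 1 - h 0) := by
    intro τ hτ
    set c := h 0 + τ * (h 1 - h 0) with hc'
    have c0 : h 0 ≤ c := by nlinarith [hτ.1]
    have c1 : c ≤ h 1 := by nlinarith [hτ.2]
    obtain ⟨a, ⟨a1, a2⟩, a3⟩ := (k1.of_isClosed_subset
      (h6.preimage_isClosed_of_isClosed k1.isClosed (isClosed_Iic (a := c)))
      inter_subset_left).exists_isGreatest ⟨0, k3, c0⟩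
    obtain ⟨b, ⟨b1, b2⟩, b3⟩ := (k1.of_isClosed_subset
      (h6.preimage_isClosed_of_isClosed k1.isClosed (isClosed_Ici (a := c)))
      inter_subset_left).exists_isLeast ⟨1, k4, c1⟩
    refine ⟨a, a1, le_antisymm a2 (le_trans b2 ?_)⟩
    rcases le_or_gt b a with l | l
    · exact h1 l
    · refine ((h5 a a1 b b1).1 ((k5 a a1 b b1 l).2 fun t ht => ?_)).ge
      rcases le_total (h t) c with k | k
      · exact Or.inl (a3 ⟨ht, k⟩)
      · exact Or.inr (b3 ⟨ht, k⟩)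
  choose! κ κ1 κ2 using h7
  refine ⟨_, ⟨γ ∘ κ, ?_, ?_, ?_, ?_, rfl⟩, ?_⟩
  · rw [continuousOn_iff_isClosed]
    intro Z hZ
    refine ⟨(fun τ => h 0 + τ * (h 1 - h 0)) ⁻¹' (h '' (K ∩ γ ⁻¹' Z)), ?_, ?_⟩
    · exact ((k1.inter_right (hZ.preimage hc)).image_of_continuousOn
        (h6.mono inter_subset_left)).isClosed.preimage (by fun_prop)
    · ext τ
      constructor
      · rintro ⟨t1, t2⟩
        exact ⟨⟨κ τ, ⟨κ1 τ t2, t1⟩, κ2 τ t2⟩, t2⟩
      · rintro ⟨⟨k, ⟨p1, p2⟩, p3⟩, t2⟩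
        refine ⟨?_, t2⟩
        change γ (κ τ) ∈ Z
        rwa [(h5 _ (κ1 τ t2) k p1).2 (by rw [κ2 τ t2, p3])]
  · intro s hs t ht e
    have := (h5 _ (κ1 s hs) _ (κ1 t ht)).1 e
    rw [κ2 s hs, κ2 t ht] at this
    exact mul_right_cancel₀ H0.ne' (add_left_cancel this)
  · exact (h5 _ (κ1 0 (by simp)) 0 k3).2 (by rw [κ2 0 (by simp)]; ring)
  · exact (h5 _ (κ1 1 (by simp)) 1 k4).2 (by rw [κ2 1 (by simp)]; ring)
  · rintro _ ⟨t, -, rfl⟩
    exact ⟨κ t, rfl⟩

end Pool.Agent.H.MP_f6f14e_gt
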