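import Pool.Agent.H.MP_f6f14e_gt.A

namespace Pool.Agent.H.MP_f6f14e_gt

open Set Filter Topology Metric

variable {X : Type*} [MetricSpace X]

/-- unique arcs -/
def UA (X : Type*) [MetricSpace X] : Prop := ∀ x y : X, x ≠ y → ∃! A, IsArc A x y

/-- the arc between two points -/
def I (x y : X) : Set X := {x} ∪ {z | ∃ A, IsArc A x y ∧ z ∈ A}

theorem IsArc.ne {A : Set X} {x y : X} (h : IsArc A x y) : x ≠ y := by
  obtain ⟨g, -, g2, g3, g4, -⟩ := h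
  intro e
  exact zero_ne_one (g2 (by simp) (by simp) (by rw [g3, g4, e]))

theorem I_self (x : X) : I x x = {x} :=
  union_eq_left.2 fun _ ⟨_, h, _⟩ => absurd rfl h.ne

theorem UA.I_eq (h : UA X) {A : Set X} {x y : X} (hA : IsArc A x y) : I x y = A := by
  apply Subset.antisymm
  · rintro z (rfl | ⟨A', h1, h2⟩)
    · obtain ⟨g, -, -, g3, -, rfl⟩ := hA
      exact ⟨0, by simp, g3⟩
    · rwa [(h x y hA.ne).unique hA h1]
  · exact fun z hz => Or.inr ⟨A, hA, hz⟩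

theorem UA.param (h : UA X) {x y : X} (hxy : x ≠ y) : ∃ g : ℝ → X, ContinuousOn g (Icc 0 1) ∧
    g 0 = x ∧ g 1 = y ∧ (∀ s ∈ Icc (0 : ℝ) 1, ∀ t ∈ Icc (0 : ℝ) 1, s ≤ t →
      I (g s) (g t) = g '' Icc s t) ∧ InjOn g (Icc 0 1) := by
  obtain ⟨A, ⟨g, g1, g2, g3, g4, -⟩, -⟩ := h x y hxy
  refine ⟨g, g1, g3, g4, fun s hs t ht hst => ?_, g2⟩
  rcases hst.eq_or_lt with rfl | hst
  · simp [I_self]
  have m : MapsTo (fun τ => s + τ * (t - s)) (Icc 0 1) (Icc 0 1) := fun τ hτ =>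
    ⟨by nlinarith [hτ.1, hs.1], by nlinarith [hτ.2, ht.2]⟩
  refine h.I_eq ⟨fun τ => g (s + τ * (t - s)), g1.comp (by fun_prop) m, fun a ha b hb e => ?_,
    by simp, by simp, ?_⟩
  · exact mul_right_cancel₀ (sub_pos.2 hst).ne' (add_left_cancel (g2 (m ha) (m hb) e))
  · ext z
    constructor
    · rintro ⟨r, hr, rfl⟩
      have := sub_pos.2 hst
      refine ⟨(r - s) / (t - s), ⟨div_nonneg (by linarith [hr.1]) this.le,
        (div_le_one this).2 (by linarith [hr.2])⟩, ?_⟩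
      dsimp only
      rw [div_mul_cancel₀ _ this.ne', add_sub_cancel]
    · rintro ⟨τ, hτ, rfl⟩
      exact ⟨_, ⟨by nlinarith [hτ.1], by nlinarith [hτ.2]⟩, rfl⟩

theorem UA.par (h : UA X) (x y : X) : ∃ g : ℝ → X, ContinuousOn g (Icc 0 1) ∧
    g 0 = x ∧ g 1 = y ∧ I x y = g '' Icc 0 1 ∧
      (∀ t ∈ Icc (0 : ℝ) 1, I x (g t) = g '' Icc 0 t) ∧
      (∀ t ∈ Icc (0 : ℝ) 1, I (g t) y = g '' Icc t 1) := by
  by_cases hxy : x = y
  · subst hxy
    refine ⟨fun _ => x, continuousOn_const, rfl, rfl, ?_, fun t ht => ?_, fun t ht => ?_⟩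
    · rw [I_self, (nonempty_Icc.2 zero_le_one).image_const]
    · rw [I_self, (nonempty_Icc.2 ht.1).image_const]
    · rw [I_self, (nonempty_Icc.2 ht.2).image_const]
  · obtain ⟨g, g1, rfl, rfl, g4, -⟩ := h.param hxy
    exact ⟨g, g1, rfl, rfl, g4 0 (by simp) 1 (by simp) zero_le_one,
      fun t ht => g4 0 (by simp) t ht ht.1, fun t ht => g4 t ht 1 (by simp) ht.2⟩

theorem left_mem (x y : X) : x ∈ I x y := Or.inl rfl

theorem UA.right_mem (h : UA X) (x y : X) : y ∈ I x y := by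
  obtain ⟨g, -, -, g3, g4, -⟩ := h.par x y
  exact g4 ▸ ⟨1, by simp, g3⟩

theorem UA.compact (h : UA X) (x y : X) : IsCompact (I x y) := by
  obtain ⟨g, g1, -, -, g4, -⟩ := h.par x y
  exact g4 ▸ isCompact_Icc.image_of_continuousOn g1

theorem UA.conn (h : UA X) (x y : X) : IsPreconnected (I x y) := by
  obtain ⟨g, g1, -, -, g4, -⟩ := h.par x y
  exact g4 ▸ isPreconnected_Icc.image g g1

theorem UA.symm (h : UA X) (x y : X) : I x y = I y x := by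
  by_cases hxy : x = y
  · rw [hxy]
  obtain ⟨A, ⟨g, g1, g2, g3, g4, g5⟩, -⟩ := h x y hxy
  have m : MapsTo (fun τ : ℝ => 1 - τ) (Icc 0 1) (Icc 0 1) := fun τ hτ =>
    ⟨by linarith [hτ.2], by linarith [hτ.1]⟩
  rw [h.I_eq ⟨g, g1, g2, g3, g4, g5⟩]
  refine (h.I_eq ⟨fun τ => g (1 - τ), g1.comp (by fun_prop) m, fun a ha b hb e => ?_,
    by simpa, by simpa, ?_⟩).symm
  · linarith [g2 (m ha) (m hb) e]
  · rw [g5, ← image_image g (fun τ : ℝ => 1 - τ), image_const_sub_Icc]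
    simp

theorem UA.antisymm (h : UA X) {x z w : X} (h1 : z ∈ I x w) (h2 : w ∈ I x z) : z = w := by
  by_cases hxw : x = w
  · rw [hxw, I_self] at h1
    exact h1
  obtain ⟨g, -, rfl, rfl, g4, g5⟩ := h.param hxw
  rw [g4 0 (by simp) 1 (by simp) zero_le_one] at h1
  obtain ⟨s, hs, rfl⟩ := h1
  rw [g4 0 (by simp) s hs hs.1] at h2
  obtain ⟨t, ht, e⟩ := h2
  have := g5 ⟨ht.1, ht.2.trans hs.2⟩ (by simp) e
  rw [le_antisymm hs.2 (this ▸ ht.2)]

theorem UA.sub_left (h : UA X) {x y z : X} (hz : z ∈ I x y) : I x z ⊆ I x y := by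
  obtain ⟨g, -, -, -, g4, g5, -⟩ := h.par x y
  rw [g4] at hz ⊢
  obtain ⟨t, ht, rfl⟩ := hz
  rw [g5 t ht]
  exact image_mono (Icc_subset_Icc_right ht.2)

theorem UA.sub_right (h : UA X) {x y z : X} (hz : z ∈ I x y) : I z y ⊆ I x y := by
  rw [h.symm x y] at hz ⊢
  rw [h.symm z y]
  exact h.sub_left hz

theorem UA.split (h : UA X) {x y z : X} (hz : z ∈ I x y) : I x y ⊆ I x z ∪ I z y := by
  obtain ⟨g, -, -, -, g4, g5, g6⟩ := h.par x y
  rw [g4] at hz ⊢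
  obtain ⟨t, ht, rfl⟩ := hz
  rw [g5 t ht, g6 t ht, ← image_union, Icc_union_Icc_eq_Icc ht.1 ht.2]

theorem UA.total (h : UA X) {x y z w : X} (hz : z ∈ I x y) (hw : w ∈ I x y) :
    z ∈ I x w ∨ w ∈ I x z := by
  obtain ⟨g, -, -, -, g4, g5, -⟩ := h.par x y
  rw [g4] at hz hw
  obtain ⟨s, hs, rfl⟩ := hz
  obtain ⟨t, ht, rfl⟩ := hw
  rw [g5 s hs, g5 t ht]
  rcases le_total s t with k | k
  · exact Or.inl ⟨s, ⟨hs.1, k⟩, rfl⟩
  · exact Or.inr ⟨t, ⟨ht.1, k⟩, rfl⟩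

theorem UA.btw (h : UA X) {x y z w : X} (hz : z ∈ I x w) (hw : w ∈ I x y) : w ∈ I z y := by
  obtain ⟨g, -, -, -, g4, g5, g6⟩ := h.par x y
  rw [g4] at hw
  obtain ⟨t, ht, rfl⟩ := hw
  rw [g5 t ht] at hz
  obtain ⟨s, hs, rfl⟩ := hz
  rw [g6 s ⟨hs.1, hs.2.trans ht.2⟩]
  exact ⟨t, ⟨hs.2, ht.2⟩, rfl⟩

theorem UA.btw' (h : UA X) {x y z w : X} (hz : z ∈ I x y) (hw : w ∈ I z y) : z ∈ I x w := by
  rw [h.symm] at hz hw ⊢
  exact h.btw hw hz

theorem UA.first (h : UA X) {x y : X} {Z : Set X} (hZ : IsClosed Z) (hn : (Z ∩ I x y).Nonempty) :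
    ∃ z ∈ Z ∩ I x y, ∀ w ∈ Z ∩ I x y, z ∈ I x w := by
  obtain ⟨g, g1, -, -, g4, g5, -⟩ := h.par x y
  rw [g4] at hn ⊢
  obtain ⟨_, z1, t, ht, rfl⟩ := hn
  obtain ⟨s, ⟨s1, s2⟩, s3⟩ := (isCompact_Icc.of_isClosed_subset
    (g1.preimage_isClosed_of_isClosed isClosed_Icc hZ) inter_subset_left).exists_isLeast
    ⟨t, ht, z1⟩
  refine ⟨g s, ⟨s2, s, s1, rfl⟩, ?_⟩
  rintro _ ⟨w1, r, hr, rfl⟩
  rw [g5 r hr]
  exact ⟨s, ⟨s1.1, s3 ⟨hr, w1⟩⟩, rfl⟩

theorem UA.concat (h : UA X) {x y m : X} (hm : ∀ z ∈ I x m, z ∈ I m y → z = m) : m ∈ I x y := by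
  by_cases h1 : x = m
  · exact h1 ▸ left_mem x y
  by_cases h2 : m = y
  · exact h2 ▸ h.right_mem x m
  obtain ⟨A, hA, -⟩ := h x m h1
  obtain ⟨A', hA', -⟩ := h m y h2
  rw [h.I_eq hA, h.I_eq hA'] at hm
  obtain ⟨f, f1, f2, f3, f4, rfl⟩ := hA
  obtain ⟨g, g1, g2, g3, g4, rfl⟩ := hA'
  classical
  set γ : ℝ → X := fun t => if t ≤ 1 / 2 then f (2 * t) else g (2 * t - 1) with hγ
  have e1 : ∀ t, t ≤ 1 / 2 → γ t = f (2 * t) := fun t ht => by simp only [hγ, if_pos ht]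
  have e2 : ∀ t, 1 / 2 ≤ t → γ t = g (2 * t - 1) := fun t ht => by
    rcases ht.eq_or_lt with rfl | ht
    · rw [e1 _ le_rfl]
      norm_num [f4, g3]
    · simp only [hγ, if_neg (not_le.2 ht)]
  have cross : ∀ s ∈ Icc (0 : ℝ) 1, ∀ t ∈ Icc (0 : ℝ) 1, s ≤ 1 / 2 → 1 / 2 ≤ t → γ s = γ t →
      s = t := by
    intro s hs t ht k k' e
    rw [e1 s k, e2 t k'] at e
    have m1 : 2 * s ∈ Icc (0 : ℝ) 1 := ⟨by linarith [hs.1], by linarith⟩
    have m2 : 2 * t - 1 ∈ Icc (0 : ℝ) 1 := ⟨by linarith, by linarith [ht.2]⟩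
    have := hm _ ⟨_, m1, rfl⟩ ⟨_, m2, e.symm⟩
    have a1 := f2 m1 (by simp) (this.trans f4.symm)
    have a2 := g2 m2 (by simp) ((e.symm.trans this).trans g3.symm)
    linarith
  rw [h.I_eq (A := γ '' Icc 0 1) ⟨γ, ?_, fun s hs t ht e => ?_, by rw [e1 0 (by norm_num)]; simpa,
    by rw [e2 1 (by norm_num)]; norm_num [g4], rfl⟩]
  · exact ⟨1 / 2, by norm_num, by rw [e1 _ le_rfl]; simpa⟩
  · rw [← Icc_union_Icc_eq_Icc (show (0 : ℝ) ≤ 1 / 2 by norm_num) (by norm_num)]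
    refine ContinuousOn.union_of_isClosed ?_ ?_ isClosed_Icc isClosed_Icc
    · refine ContinuousOn.congr (f1.comp (f := fun t => 2 * t) (by fun_prop) fun t ht => ?_)
        fun t ht => e1 t ht.2
      exact ⟨by linarith [ht.1], by linarith [ht.2]⟩
    · refine ContinuousOn.congr (g1.comp (f := fun t => 2 * t - 1) (by fun_prop) fun t ht => ?_)
        fun t ht => e2 t ht.1
      exact ⟨by linarith [ht.1], by linarith [ht.2]⟩
  · rcases le_total s (1 / 2) with k | k <;> rcases le_total t (1 / 2) with k' | k'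
    · rw [e1 s k, e1 t k'] at e
      linarith [f2 ⟨by linarith [hs.1], by linarith⟩ ⟨by linarith [ht.1], by linarith⟩ e]
    · exact cross s hs t ht k k' e
    · exact (cross t ht s hs k' k e.symm).symm
    · rw [e2 s k, e2 t k'] at e
      linarith [g2 ⟨by linarith, by linarith [hs.2]⟩ ⟨by linarith, by linarith [ht.2]⟩ e]

theorem UA.median (h : UA X) (o x y : X) : ∃ m, m ∈ I o x ∧ m ∈ I o y ∧ m ∈ I x y := by
  obtain ⟨m, ⟨m1, m2⟩, m3⟩ := h.first (x := x) (y := o) (h.compact o y).isClosed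
    ⟨o, left_mem o y, h.right_mem x o⟩
  refine ⟨m, h.symm x o ▸ m2, m1, h.concat fun z z1 z2 => ?_⟩
  exact h.antisymm z1 (m3 z ⟨h.sub_right m1 z2, h.sub_left m2 z1⟩)

theorem UA.tri (h : UA X) (o x y : X) : I x y ⊆ I x o ∪ I o y := by
  obtain ⟨m, m1, m2, m3⟩ := h.median o x y
  rw [h.symm] at m1
  exact (h.split m3).trans (union_subset_union (h.sub_left m1) (h.sub_right m2))

/-- diameter distance -/
noncomputable def D (x y : X) : ℝ := diam (I x y)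

theorem D_nonneg (x y : X) : 0 ≤ D x y := diam_nonneg

theorem D_self (x : X) : D x x = 0 := by simp [D, I_self]

theorem UA.D_symm (h : UA X) (x y : X) : D x y = D y x := by rw [D, D, h.symm]

theorem UA.dist_le (h : UA X) (x y : X) : dist x y ≤ D x y :=
  dist_le_diam_of_mem (h.compact x y).isBounded (left_mem x y) (h.right_mem x y)

theorem UA.D_tri (h : UA X) (x o y : X) : D x y ≤ D x o + D o y :=
  (diam_mono (h.tri o x y) ((h.compact _ _).union (h.compact _ _)).isBounded).trans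
    (diam_union' ⟨o, h.right_mem x o, left_mem o y⟩)

theorem UA.D_left (h : UA X) {x y z : X} (hz : z ∈ I x y) : D x z ≤ D x y :=
  diam_mono (h.sub_left hz) (h.compact _ _).isBounded

theorem UA.D_right (h : UA X) {x y z : X} (hz : z ∈ I x y) : D z y ≤ D x y :=
  diam_mono (h.sub_right hz) (h.compact _ _).isBounded

theorem UA.D_le [CompleteSpace X] (h : UA X) {B : ℝ} (hB : 0 ≤ B)
    (bt : ∀ u v : X, ∃ E, IsPreconnected E ∧ u ∈ E ∧ v ∈ E ∧ ∀ a ∈ E, dist a u ≤ B * dist u v)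
    (u v : X) : D u v ≤ 2 * (4 * B + 5) * dist u v := by
  by_cases huv : u = v
  · simp [huv, D_self]
  obtain ⟨γ, g1, g2, g3, g4⟩ := exists_path hB bt huv
  obtain ⟨A, a1, a2⟩ := arc_of_path g1 (by rwa [g2, g3])
  rw [g2, g3] at a1
  rw [D, h.I_eq a1, mul_assoc]
  refine diam_le_of_subset_closedBall (x := u) (by positivity) (a2.trans ?_)
  rintro _ ⟨t, rfl⟩
  exact g4 t

end Pool.Agent.H.MP_f6f14e_gt
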