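import Pool.Agent.H.MP_f6f14e_gt.B

namespace Pool.Agent.H.MP_f6f14e_gt

open Set Filter Topology Metric

variable {X : Type*} [MetricSpace X]

/-- first point at distance `r` -/
def Hit (r : ℝ) (β x z : X) : Prop :=
  z ∈ I β x ∧ r ≤ D β z ∧ ∀ w ∈ I β x, r ≤ D β w → z ∈ I β w

open Classical in
/-- next breakpoint -/
noncomputable def nx (r : ℝ) (β x : X) : X := if h : ∃ z, Hit r β x z then h.choose else β

/-- clamp -/
noncomputable def cl (r p a : ℝ) : ℝ := max (p - 2 * r) (min a (p + 2 * r))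

open Classical in
/-- value along a piece -/
noncomputable def stp (P : X → ℝ) (r : ℝ) (β : X) (v : ℝ) (x : X) : ℝ :=
  cl r (P x) (v + (if P β ≤ v then -1 else 1) * max (D β x - r / 2) 0)

/-- breakpoints and values -/
noncomputable def st (o : X) (P : X → ℝ) (r : ℝ) (x : X) : ℕ → X × ℝ
  | 0 => (o, P o)
  | n + 1 => (nx r (st o P r x n).1 x,
      stp P r (st o P r x n).1 (st o P r x n).2 (nx r (st o P r x n).1 x))

theorem cl_lip {r p p' a a' d : ℝ} (h : |p - p'| ≤ d) (h' : |a - a'| ≤ d) :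
    |cl r p a - cl r p' a'| ≤ d := by
  refine (abs_max_sub_max_le_max _ _ _ _).trans (max_le (by simpa using h) ?_)
  exact (abs_min_sub_min_le_max _ _ _ _).trans (max_le h' (by simpa using h))

theorem cl_bd {r : ℝ} (hr : 0 ≤ r) (p a : ℝ) : |cl r p a - p| ≤ 2 * r := by
  rw [abs_le]
  constructor
  · have : p - 2 * r ≤ cl r p a := le_max_left _ _
    linarith
  · have : cl r p a ≤ p + 2 * r := max_le (by linarith) (min_le_right _ _)
    linarith

theorem cl_eq {r p a : ℝ} (h : |a - p| ≤ 2 * r) : cl r p a = a := by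
  rw [abs_le] at h
  rw [cl, min_eq_left (by linarith), max_eq_right (by linarith)]

/-- standing hypotheses -/
structure Tr (X : Type*) [MetricSpace X] (C : ℝ) : Prop where
  ua : UA X
  pos : 0 < C
  le : ∀ x y : X, D x y ≤ C * dist x y

variable {C r : ℝ} {o : X} {P : X → ℝ}

theorem UA.D_abs (h : UA X) (β x y : X) : |D β x - D β y| ≤ D y x := by
  rw [abs_le]
  constructor
  · linarith [h.D_tri β x y, h.D_symm x y]
  · linarith [h.D_tri β y x]

theorem Tr.cont (h : Tr X C) (β : X) : Continuous (D β) := by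
  refine (LipschitzWith.of_dist_le_mul (K := C.toNNReal) fun x y => ?_).continuous
  rw [Real.dist_eq, Real.coe_toNNReal _ h.pos.le, dist_comm]
  exact (h.ua.D_abs β x y).trans (h.le y x)

theorem Tr.nx_hit (h : Tr X C) {β x : X} (hr : r ≤ D β x) : Hit r β x (nx r β x) := by
  obtain ⟨z, z1, z2⟩ := h.ua.first (x := β) (y := x) (isClosed_le continuous_const (h.cont β))
    ⟨x, hr, h.ua.right_mem β x⟩
  have : ∃ z, Hit r β x z := ⟨z, z1.2, z1.1, fun w w1 w2 => z2 w ⟨w2, w1⟩⟩
  rw [nx, dif_pos this]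
  exact this.choose_spec

theorem UA.nx_stall (h : UA X) {β x : X} (hr : D β x < r) : nx r β x = β :=
  dif_neg fun ⟨_, z1, z2, _⟩ => by linarith [h.D_left z1]

theorem Tr.nx_mem (h : Tr X C) (β x : X) : nx r β x ∈ I β x := by
  rcases le_or_gt r (D β x) with k | k
  · exact (h.nx_hit k).1
  · rw [h.ua.nx_stall k]
    exact left_mem β x

theorem Tr.nx_eq (h : Tr X C) (r0 : 0 ≤ r) {β x : X} (hr : r ≤ D β x) :
    D β (nx r β x) = r := by
  obtain ⟨z1, z2, z3⟩ := h.nx_hit hr
  obtain ⟨w, w1, w2⟩ := (h.ua.conn β (nx r β x)).intermediate_value (left_mem _ _)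
    (h.ua.right_mem _ _) (h.cont β).continuousOn (show r ∈ _ from ⟨by rwa [D_self], z2⟩)
  rwa [h.ua.antisymm (z3 w (h.ua.sub_left z1 w1) w2.ge) w1]

theorem Tr.nx_causal (h : Tr X C) {β x y : X} (hy : y ∈ I β x) (hz : nx r β x ∈ I β y) :
    nx r β y = nx r β x := by
  rcases le_or_gt r (D β x) with k | k
  · obtain ⟨-, z2, z3⟩ := h.nx_hit k
    obtain ⟨w1, w2, w3⟩ := h.nx_hit (z2.trans (h.ua.D_left hz))
    exact h.ua.antisymm (w3 _ hz z2) (z3 _ (h.ua.sub_left hy w1) w2)
  · rw [h.ua.nx_stall k, h.ua.nx_stall ((h.ua.D_left hy).trans_lt k)]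

theorem Tr.b_mem (h : Tr X C) (x : X) (n : ℕ) : (st o P r x n).1 ∈ I o x := by
  induction n with
  | zero => exact left_mem o x
  | succ n ih => exact h.ua.sub_right ih (h.nx_mem _ x)

theorem Tr.b_step (h : Tr X C) (x : X) (n : ℕ) : (st o P r x n).1 ∈ I o (st o P r x (n + 1)).1 :=
  h.ua.btw' (h.b_mem x n) (h.nx_mem _ x)

theorem Tr.b_mono (h : Tr X C) (x : X) {n m : ℕ} (hnm : n ≤ m) :
    (st o P r x n).1 ∈ I o (st o P r x m).1 := by
  induction m, hnm using Nat.le_induction with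
  | base => exact h.ua.right_mem _ _
  | succ m _ ih => exact h.ua.sub_left (h.b_step x m) ih

theorem st_inv (r0 : 0 ≤ r) (x : X) (n : ℕ) :
    |(st o P r x n).2 - P (st o P r x n).1| ≤ 2 * r := by
  cases n with
  | zero => simpa [st] using r0
  | succ n => exact cl_bd r0 _ _

theorem stp_near {β x : X} {v : ℝ} (hx : D β x ≤ r / 2) : stp P r β v x = cl r (P x) v := by
  rw [stp, max_eq_right (by linarith), mul_zero, add_zero]

theorem Tr.causal (h : Tr X C) {x y : X} (hy : y ∈ I o x) {n : ℕ}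
    (hn : (st o P r x n).1 ∈ I o y) : st o P r y n = st o P r x n := by
  induction n with
  | zero => rfl
  | succ n ih =>
    have a := h.ua.sub_left hn (h.b_step x n)
    simp only [st]
    rw [ih a, h.nx_causal (h.ua.btw a hy) (h.ua.btw (h.b_step x n) hn)]

theorem Tr.fin [CompactSpace X] (h : Tr X C) (r0 : 0 < r) (x : X) :
    ∃ n, D (st o P r x n).1 x < r := by
  by_contra hc
  push Not at hc
  obtain ⟨a, φ, h1, h2⟩ := CompactSpace.tendsto_subseq (fun n => (st o P r x n).1)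
  obtain ⟨N, hN⟩ := Metric.cauchySeq_iff.1 h2.cauchySeq (r / C) (div_pos r0 h.pos)
  have k := hN N le_rfl (N + 1) (by omega)
  have k2 := h.ua.D_left (h.ua.btw (h.b_step (o := o) (P := P) (r := r) x (φ N))
    (h.b_mono x (h1 (Nat.lt_succ_self N))))
  have k3 := (h.nx_hit (hc (φ N))).2.1
  have k4 := h.le (st o P r x (φ N)).1 (st o P r x (φ (N + 1))).1
  rw [lt_div_iff₀ h.pos, mul_comm] at k
  exact absurd ((k3.trans k2).trans k4) (not_le.2 k)

theorem Tr.stall (h : Tr X C) (r0 : 0 < r) {x : X} {n m : ℕ} (hn : D (st o P r x n).1 x < r)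
    (hnm : n ≤ m) : st o P r x m = st o P r x n := by
  induction m, hnm using Nat.le_induction with
  | base => rfl
  | succ m _ ih =>
    simp only [st]
    rw [ih, h.ua.nx_stall hn, stp_near (by rw [D_self]; linarith), cl_eq (st_inv r0.le x n)]

theorem Tr.last [CompactSpace X] (h : Tr X C) (r0 : 0 < r) {x y : X} (hy : y ∈ I o x) :
    ∃ n, (st o P r x n).1 ∈ I o y ∧ D (st o P r x n).1 y < r := by
  by_contra hc
  push Not at hc
  have k : ∀ n, (st o P r x n).1 ∈ I o y := fun n => by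
    induction n with
    | zero => exact left_mem o y
    | succ n ih =>
      have a := h.ua.btw ih hy
      exact h.ua.sub_right ih ((h.nx_hit ((hc n ih).trans (h.ua.D_left a))).2.2 y a (hc n ih))
  obtain ⟨n, hn⟩ := h.fin (o := o) (P := P) r0 y
  rw [h.causal hy (k n)] at hn
  exact absurd (hc n (k n)) (not_le.2 hn)

theorem UA.stp_lip (h : UA X) {β x y : X} {v : ℝ} (hP : |P x - P y| ≤ D y x) :
    |stp P r β v x - stp P r β v y| ≤ D y x := by
  refine cl_lip hP ?_
  rw [add_sub_add_left_eq_sub, ← mul_sub, abs_mul]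
  have : |max (D β x - r / 2) 0 - max (D β y - r / 2) 0| ≤ D y x :=
    (abs_max_sub_max_le_abs _ _ _).trans (by simpa using h.D_abs β x y)
  split_ifs <;> simpa using this

theorem Tr.scale [CompactSpace X] (h : Tr X C) (r0 : 0 < r)
    (hP : ∀ x, ∀ y ∈ I o x, D y x ≤ r → |P x - P y| ≤ D y x) : ∃ F : X → ℝ,
      (∀ x, |F x - P x| ≤ 2 * r) ∧ (∀ x, ∀ y ∈ I o x, D y x ≤ r / 2 → |F x - F y| ≤ D y x) ∧
      ∀ x, ∀ y ∈ I o x, 2 * r < D y x → ∃ a ∈ I y x, ∃ b ∈ I y x, r / 2 ≤ |F a - F b| := by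
  choose N hN using h.fin (o := o) (P := P) r0
  set F : X → ℝ := fun x => stp P r (st o P r x (N x)).1 (st o P r x (N x)).2 x with hF
  have f1 : ∀ x n, D (st o P r x n).1 x < r →
      F x = stp P r (st o P r x n).1 (st o P r x n).2 x := fun x n hn => by
    simp only [hF]
    rw [← h.stall r0 hn (le_max_left n (N x)), ← h.stall r0 (hN x) (le_max_right n (N x))]
  have f2 : ∀ x n, F (st o P r x n).1 = (st o P r x n).2 := fun x n => by
    have e := h.causal (h.b_mem (o := o) (P := P) (r := r) x n) (h.ua.right_mem _ _)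
    rw [f1 _ n (by rwa [e, D_self]), e, stp_near (by rw [D_self]; linarith),
      cl_eq (st_inv r0.le x n)]
  have f3 : ∀ x, |F x - P x| ≤ 2 * r := fun x => cl_bd r0.le _ _
  have f4 : ∀ x, ∀ y ∈ I o x, ∀ n, (st o P r x n).1 ∈ I o y → D (st o P r x n).1 y < r →
      r ≤ D (st o P r x n).1 x → y ∈ I (st o P r x n).1 (st o P r x (n + 1)).1 := by
    intro x y hy n n1 n2 k
    obtain ⟨z1, z2, -⟩ := h.nx_hit k
    refine (h.ua.total (h.ua.btw n1 hy) z1).resolve_right fun k' => ?_
    linarith [h.ua.D_left k']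
  refine ⟨F, f3, fun x y hy hd => ?_, fun x y hy hd => ?_⟩
  · obtain ⟨n, n1, n2⟩ := h.last (P := P) r0 hy
    have e := h.causal hy n1
    have ey := f1 y n (by rwa [e])
    rw [e] at ey
    rcases lt_or_ge (D (st o P r x n).1 x) r with k | k
    · rw [f1 x n k, ey]
      exact h.ua.stp_lip (hP x y hy (by linarith))
    · have a1 := f4 x y hy n n1 n2 k
      have a2 := h.ua.btw a1 (h.nx_mem _ x)
      have a3 := h.ua.D_right a2
      have a4 := h.ua.D_left a2
      rw [f1 x (n + 1) (by linarith), stp_near (a3.trans hd), ← cl_eq (f3 y)]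
      refine cl_lip (hP x y hy (by linarith)) (le_trans ?_ a4)
      rw [ey]
      exact h.ua.stp_lip (hP _ y (h.ua.sub_right (h.b_step x n) a1) (a4.trans (by linarith)))
  · obtain ⟨n, n1, n2⟩ := h.last (P := P) r0 hy
    have k : r ≤ D (st o P r x n).1 x := by linarith [h.ua.D_right (h.ua.btw n1 hy)]
    have a1 := f4 x y hy n n1 n2 k
    have a2 : (st o P r x (n + 1)).1 ∈ I y x := h.ua.btw a1 (h.nx_mem _ x)
    have a3 : D y (st o P r x (n + 1)).1 ≤ r := (h.ua.D_right a1).trans (h.nx_eq r0.le k).le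
    have k' : r ≤ D (st o P r x (n + 1)).1 x := by
      linarith [h.ua.D_tri y (st o P r x (n + 1)).1 x]
    have a4 : D (st o P r x (n + 1)).1 (st o P r x (n + 2)).1 = r := h.nx_eq r0.le k'
    refine ⟨_, a2, (st o P r x (n + 2)).1, h.ua.sub_right a2 (h.nx_mem _ x), ?_⟩
    have a5 := hP _ _ (h.b_step (o := o) (P := P) (r := r) x (n + 1)) a4.le
    have a6 : (st o P r x (n + 2)).2 = stp P r (st o P r x (n + 1)).1 (st o P r x (n + 1)).2
      (st o P r x (n + 2)).1 := rfl
    rw [f2, f2, a6, stp, a4, max_eq_left (by linarith), cl]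
    rw [a4, abs_le] at a5
    split_ifs with s
    · refine le_trans ?_ (le_abs_self _)
      rw [le_sub_comm]
      exact max_le (by linarith [a5.2]) ((min_le_left _ _).trans (by linarith))
    · refine le_trans ?_ (neg_le_abs _)
      rw [neg_sub, le_sub_iff_add_le]
      exact le_max_of_le_right (le_min (by linarith) (by linarith [a5.1]))

theorem Tr.main [CompactSpace X] (h : Tr X C) (o : X) : ∃ f : X → ℝ,
    (∀ x, ∀ y ∈ I o x, |f x - f y| ≤ 10 * D y x) ∧
      ∀ x, ∀ y ∈ I o x, ∃ a ∈ I y x, ∃ b ∈ I y x, D y x ≤ 136 * |f a - f b| := by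
  obtain ⟨R, hR⟩ : ∃ R, R = diam (univ : Set X) + 1 := ⟨_, rfl⟩
  have R0 : 0 < R := by rw [hR]; positivity
  have R1 : ∀ x y : X, D x y < R := fun x y =>
    (diam_mono (subset_univ _) isCompact_univ.isBounded).trans_lt (by linarith)
  set ρ : ℕ → ℝ := fun k => R * (1 / 17) ^ k with hρ
  have p0 : ∀ k, 0 < ρ k := fun k => by positivity
  have p1 : ∀ k, ρ k = 17 * ρ (k + 1) := fun k => by simp only [hρ]; ring
  let Q : ℕ → (X → ℝ) → Prop := fun k P =>
    ∀ x, ∀ y ∈ I o x, D y x ≤ 17 / 2 * ρ k → |P x - P y| ≤ D y x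
  have step : ∀ k P, Q k P → ∃ F, Q (k + 1) F ∧ (∀ x, |F x - P x| ≤ 2 * ρ k) ∧
      ∀ x, ∀ y ∈ I o x, 2 * ρ k < D y x → ∃ a ∈ I y x, ∃ b ∈ I y x, ρ k / 2 ≤ |F a - F b| := by
    intro k P hP
    obtain ⟨F, f1, f2, f3⟩ := h.scale (p0 k) fun x y hy hd => hP x y hy (by linarith [p0 k])
    exact ⟨F, fun x y hy hd => f2 x y hy (by linarith [p1 k]), f1, f3⟩
  choose! s hs using step
  let g : ℕ → X → ℝ := fun n => Nat.rec (fun _ => 0) s n
  have gQ : ∀ n, Q n (g n) := fun n => by
    induction n with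
    | zero => exact fun x y _ _ => by simpa [g] using D_nonneg y x
    | succ n ih => exact (hs n _ ih).1
  have gd : ∀ x n, dist (g n x) (g (n + 1) x) ≤ 2 * R * (1 / 17) ^ n := fun x n => by
    rw [dist_comm, mul_assoc]
    exact (hs n _ (gQ n)).2.1 x
  have lim : ∀ x, ∃ a, Tendsto (fun n => g n x) atTop (𝓝 a) := fun x =>
    cauchySeq_tendsto_of_complete (cauchySeq_of_le_geometric (1 / 17) _ (by norm_num) (gd x))
  choose f hf using lim
  have gl : ∀ x n, |g n x - f x| ≤ 17 / 8 * ρ n := fun x n =>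
    (dist_le_of_le_geometric_of_tendsto (1 / 17) _ (by norm_num) (gd x) (hf x) n).trans
      (le_of_eq (by simp only [hρ]; ring))
  have tri : ∀ n a b, |(|g n a - g n b|) - (|f a - f b|)| ≤ 17 / 4 * ρ n := fun n a b => by
    refine (abs_abs_sub_abs_le_abs_sub _ _).trans ?_
    have := abs_sub (g n a - f a) (g n b - f b)
    rw [show g n a - g n b - (f a - f b) = g n a - f a - (g n b - f b) by ring]
    linarith [gl a n, gl b n]
  have sc : ∀ c d : ℝ, 0 < c → 0 < d → ∃ k, c * ρ k < d ∧ ∀ j, j < k → d ≤ c * ρ j := by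
    intro c d c0 d0
    classical
    have : ∃ k, c * ρ k < d := by
      have := (((tendsto_pow_atTop_nhds_zero_of_lt_one (r := (1 / 17 : ℝ)) (by norm_num)
        (by norm_num)).const_mul R).const_mul c).eventually (gt_mem_nhds (by simpa using d0))
      exact this.exists
    exact ⟨Nat.find this, Nat.find_spec this, fun j hj => not_lt.1 (Nat.find_min this hj)⟩
  refine ⟨f, fun x y hy => ?_, fun x y hy => ?_⟩
  · rcases (D_nonneg y x).eq_or_lt with e | e
    · rw [show y = x from dist_le_zero.1 ((h.ua.dist_le y x).trans e.ge)]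
      simp [D_self]
    obtain ⟨k, k1, k2⟩ := sc (17 / 2) _ (by norm_num) e
    cases k with
    | zero =>
      simp only [hρ, pow_zero] at k1
      linarith [R1 y x]
    | succ k =>
      have a := gQ k x y hy (k2 k (by omega))
      have b := abs_le.1 (tri k x y)
      linarith [p1 k]
  · rcases (D_nonneg y x).eq_or_lt with e | e
    · exact ⟨y, left_mem _ _, y, left_mem _ _, by simp [← e]⟩
    obtain ⟨k, k1, k2⟩ := sc 2 _ (by norm_num) e
    obtain ⟨a, ha, b, hb, c⟩ := (hs k _ (gQ k)).2.2 x y hy k1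
    refine ⟨a, ha, b, hb, ?_⟩
    cases k with
    | zero =>
      simp only [hρ, pow_zero] at k1
      linarith [R1 y x]
    | succ k =>
      have c' : ρ (k + 1) / 2 ≤ |g (k + 2) a - g (k + 2) b| := c
      have b := abs_le.1 (tri (k + 2) a b)
      linarith [p1 k, p1 (k + 1), k2 k (by omega)]

end Pool.Agent.H.MP_f6f14e_gt
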